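import Pool.Agent.Helper487.ECM.Scale

open Filter Topology Finset
open scoped PeriodPair

namespace Pool.Agent.Results.MP_88847a_mp.PolynomialForm

/-!
# The polynomial form of the elliptic Calogero-Moser operator, for every number of particles

`L` is a period pair, `℘[L]` its Weierstrass function. With `n = N + 1`, let `b_0 = 1` and
`b_k = ℘^(k-1)`; the new variables are the coefficients of the function
`φ(z) = 1 - ∑ u_k b_k(z)` with zeros `y_1, …, y_N`, and by Abel's theorem the last zero is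
`y_{N+1} = -∑ y_i`. The proof computes the operator in the variables `u` by means of the kernel
`-Q (φ'(z) φ(w) - φ(z) φ'(w)) - φ'(z) φ'(w) / n + (n - 1) (℘(z) + ℘(w)) φ(z) φ(w) / 2
 + (φ''(z) φ(w) + φ(z) φ''(w)) / (2 n)`, `Q = (℘'(z) + ℘'(w)) / (2 (℘(z) - ℘(w)))`,
which is a combination of the products `b_k(z) b_l(w)`, `k, l ≤ N`, with coefficients
quadratic in `u`.
-/

/-- The derivative `∂f/∂y_i` of a function on `ℂ^N`. -/
noncomputable def pd {N : ℕ} (i : Fin N) (f : (Fin N → ℂ) → ℂ) (y : Fin N → ℂ) : ℂ :=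
  fderiv ℂ f y (Pi.single i 1)

/-- The `N + 1` coordinates `y_1, …, y_N, y_{N+1}`, where `y_{N+1} = -(y_1 + … + y_N)`. -/
noncomputable def allCoords {N : ℕ} (y : Fin N → ℂ) : Fin (N + 1) → ℂ := Fin.snoc y (-∑ i, y i)

/-- The matrix with `i`-th row `(℘(y_i), ℘'(y_i), …, ℘^(N-1)(y_i))`. -/
noncomputable def wMatrix (L : PeriodPair) {N : ℕ} (y : Fin N → ℂ) : Matrix (Fin N) (Fin N) ℂ :=
  Matrix.of fun i k => iteratedDeriv (k : ℕ) ℘[L] (y i)

/-- The new variables `u(y)`: the solution of the linear system `wMatrix y · u = (1, …, 1)`. -/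
noncomputable def uMap (L : PeriodPair) {N : ℕ} (y : Fin N → ℂ) : Fin N → ℂ :=
  (wMatrix L y)⁻¹.mulVec 1

/-- The Jacobian `D_N(y) = det (∂u_a/∂y_i)` of the map `y ↦ u`. -/
noncomputable def jacobian (L : PeriodPair) {N : ℕ} (y : Fin N → ℂ) : ℂ :=
  (Matrix.of fun a i : Fin N => pd i (fun y => uMap L y a) y).det

/-- The sum of `℘(y_i - y_j)` over the ordered pairs of distinct `i, j ≤ N + 1`. -/
noncomputable def pairSum (L : PeriodPair) {N : ℕ} (y : Fin N → ℂ) : ℂ :=
  ∑ i : Fin (N + 1), ∑ j ∈ univ.erase i, ℘[L] (allCoords y i - allCoords y j)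

/-- The elliptic Calogero-Moser operator `H_N` with parameter `β`. -/
noncomputable def hamiltonian (L : PeriodPair) {N : ℕ} (β : ℂ) (f : (Fin N → ℂ) → ℂ)
    (y : Fin N → ℂ) : ℂ :=
  -((N : ℂ) / (N + 1)) * ∑ i, pd i (pd i f) y
    + (1 / ((N : ℂ) + 1)) * ∑ i, ∑ j ∈ univ.erase i, pd i (pd j f) y
    + β * (β - 1) * pairSum L y * f y

/-- `E` is, near the point `y`, a branch of the power `D_N ^ γ` of the Jacobian:
`E = exp (γ l)` with `l` an analytic logarithm of the Jacobian near `y`. -/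
def IsPowerOfJacobian (L : PeriodPair) {N : ℕ} (γ : ℂ) (E : (Fin N → ℂ) → ℂ) (y : Fin N → ℂ) :
    Prop :=
  ∃ l : (Fin N → ℂ) → ℂ, AnalyticAt ℂ l y ∧
    ∀ᶠ y' in 𝓝 y, Complex.exp (l y') = jacobian L y' ∧ E y' = Complex.exp (γ * l y')

/-- The points where all the data are defined: `y_i ∉ Λ` for `i ≤ N`, the linear system for `u`
is nondegenerate, the Jacobian is nonzero, and `y_i - y_j ∉ Λ` for distinct `i, j ≤ N + 1`. -/
def domain (L : PeriodPair) (N : ℕ) : Set (Fin N → ℂ) :=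
  {y | (∀ i, y i ∉ L.lattice) ∧ (wMatrix L y).det ≠ 0 ∧ jacobian L y ≠ 0 ∧
    ∀ i j : Fin (N + 1), i ≠ j → allCoords y i - allCoords y j ∉ L.lattice}

/-- The operator `D_N ^ (-γ) H_N D_N ^ γ`, rewritten in the variables `u`, has polynomial
coefficients: there are polynomials `A_{ab}, B_a, C` in `u_1, …, u_N` with
`D_N ^ (-γ) H_N (D_N ^ γ F(u(y))) = (∑ A_{ab} ∂_a ∂_b F + ∑ B_a ∂_a F + C F)(u(y))`
at all points `y` of the domain and for all functions `F` analytic near `u(y)`. -/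
def HasPolynomialForm (L : PeriodPair) (N : ℕ) (β γ : ℂ) : Prop :=
  ∃ (A : Fin N → Fin N → MvPolynomial (Fin N) ℂ) (B : Fin N → MvPolynomial (Fin N) ℂ)
    (C : MvPolynomial (Fin N) ℂ), ∀ y ∈ domain L N, ∀ E, IsPowerOfJacobian L γ E y →
    ∀ F : (Fin N → ℂ) → ℂ, AnalyticAt ℂ F (uMap L y) →
      (E y)⁻¹ * hamiltonian L β (fun y' => E y' * F (uMap L y')) y =
        ∑ a, ∑ b, MvPolynomial.eval (uMap L y) (A a b) * pd a (pd b F) (uMap L y)
        + ∑ a, MvPolynomial.eval (uMap L y) (B a) * pd a F (uMap L y)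
        + MvPolynomial.eval (uMap L y) C * F (uMap L y)

/-- For every `N`, the operator obtained from `H_N` by the gauge transformation with `D_N ^ γ` and
the change of variables `y ↦ u` has polynomial coefficients if and only if
`γ (γ - 1) = β (β - 1)`, that is `γ = β` or `γ = 1 - β`. -/
theorem result (L : PeriodPair) (N : ℕ) (hN : 1 ≤ N) (β γ : ℂ) :
    HasPolynomialForm L N β γ ↔ γ * (γ - 1) = β * (β - 1) := by
  constructor
  · intro h
    exact Helper487.ECM.only_if (L := L) hN β γ h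
  · intro h
    exact Helper487.ECM.polynomial_form L hN β γ h

end Pool.Agent.Results.MP_88847a_mp.PolynomialForm
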